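import Pool.Agent.Helper60.RT.Defs2

/-!
# Project RT, block E1b: the arcs of type II
-/

open MeasureTheory Real Set Filter Topology

set_option autoImplicit false

namespace Pool.Agent.Helper60.RT

open Pool.Agent.Helper22.AE
open Pool.Agent.Helper22.AC (IsWt)
open Pool.Agent.Helper92.GC (dt tp Tq uu tt arc dd sqa m6)
open Pool.Agent.Helper92.DT (m12 IsMul12)
open Pool.Agent.Helper60.LT (Fr Tf xf yf df vf fr ac co Cut BB PP)
open Pool.Agent.Helper60.QL (R3 nm pA xA sA TA Cone)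

/-! ### General facts -/

theorem hol_5b {ι : Type} (P : Finset ι) (a : ι → ENNReal) :
    (∑ r ∈ P, a r ^ (1 / 6 : ℝ)) ^ (6 : ℝ) ≤ (P.card : ENNReal) ^ (5 : ℕ) * ∑ r ∈ P, a r := by
  have hpq : Real.HolderConjugate 6 (6 / 5) := by
    rw [Real.holderConjugate_iff]
    constructor <;> norm_num
  have h := ENNReal.inner_le_Lp_mul_Lq P (fun r => a r ^ (1 / 6 : ℝ)) (fun _ => 1) hpq
  simp only [mul_one, ENNReal.one_rpow, Finset.sum_const, nsmul_eq_mul] at h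
  have e1 : ∀ r, (a r ^ (1 / 6 : ℝ)) ^ (6 : ℝ) = a r := fun r => by
    rw [← ENNReal.rpow_mul]
    norm_num
  simp only [e1] at h
  have h2 := ENNReal.rpow_le_rpow h (by norm_num : (0 : ℝ) ≤ 6)
  refine h2.trans (le_of_eq ?_)
  rw [ENNReal.mul_rpow_of_nonneg _ _ (by norm_num), ← ENNReal.rpow_mul, ← ENNReal.rpow_mul]
  rw [mul_comm]
  congr 1
  · rw [← ENNReal.rpow_natCast]
    norm_num
  · norm_num

theorem SS_le5b (e : Fr) (B X : ℝ) (G : Finset (ℤ × ℤ)) (N : ℕ) (P : Finset ℕ) :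
    SS e B X G N P ≤ (P.card : ENNReal) ^ (5 : ℕ) *
      (∑ r ∈ P, RI e B X (arc 0 G N r) + P.card) := by
  unfold SS
  refine (hol_5b P _).trans (le_of_eq ?_)
  rw [Finset.sum_add_distrib, Finset.sum_const, nsmul_eq_mul, mul_one]

theorem RI_empty5b (e : Fr) (B X : ℝ) : RI e B X ∅ = 0 := by
  unfold RI mr m12 tp
  simp

theorem ctr_card5b {N₃ : ℕ} (hN : 1 ≤ N₃) (T : Finset ℕ) (c δ : ℝ) (hδ : 0 ≤ δ)
    (h : ∀ i ∈ T, |ctr N₃ i - c| ≤ δ) : (T.card : ℝ) ≤ 1 + δ * N₃ / 6 := by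
  have hN' : (0 : ℝ) < N₃ := by exact_mod_cast hN
  rcases T.eq_empty_or_nonempty with rfl | hT
  · rw [Finset.card_empty]
    have : 0 ≤ δ * N₃ / 6 := by positivity
    push_cast
    linarith only [this]
  · have h1 := abs_le.1 (h _ (T.min'_mem hT))
    have h2 := abs_le.1 (h _ (T.max'_mem hT))
    have h3 : T ⊆ Finset.Icc (T.min' hT) (T.max' hT) := fun i hi =>
      Finset.mem_Icc.2 ⟨T.min'_le i hi, T.le_max' i hi⟩
    have h4 := Finset.card_le_card h3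
    rw [Nat.card_Icc] at h4
    have h5 : T.min' hT ≤ T.max' hT := T.min'_le _ (T.max'_mem hT)
    have h6 : T.card + T.min' hT ≤ T.max' hT + 1 := by omega
    have h7 : (T.card : ℝ) + (T.min' hT : ℕ) ≤ (T.max' hT : ℕ) + 1 := by exact_mod_cast h6
    unfold ctr at h1 h2
    have h8 : 12 * (((T.max' hT : ℕ) : ℝ) + 1 / 2) / N₃ - 12 * (((T.min' hT : ℕ) : ℝ) + 1 / 2) / N₃ ≤
        2 * δ := by linarith only [h1.1, h2.2]
    have h9 : 12 * (((T.max' hT : ℕ) : ℝ) + 1 / 2) / N₃ - 12 * (((T.min' hT : ℕ) : ℝ) + 1 / 2) / N₃ =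
        12 * (((T.max' hT : ℕ) : ℝ) - (T.min' hT : ℕ)) / N₃ := by ring
    rw [h9, div_le_iff₀ hN'] at h8
    linarith only [h7, h8]

theorem lip5b (e : Fr) : ∃ L : ℝ, 1 ≤ L ∧ (∀ t t' : ℝ, |t| ≤ 7000 → |t'| ≤ 7000 →
    |l1 e t * l2 e t - l1 e t' * l2 e t'| ≤ L * |t - t'|) ∧
    ∀ t : ℝ, |t| ≤ 7000 → |l1 e t * l2 e t| ≤ L := by
  set a := e.1.1 with ha
  set b := e.2.1 with hb
  set c := e.1.2 with hc
  set d := e.2.2 with hd
  refine ⟨1 + |a * c| + 7000 * |a * d + b * c| + 49014000 * |b * d|, ?_, ?_, ?_⟩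
  · have := abs_nonneg (a * c)
    have := abs_nonneg (a * d + b * c)
    have := abs_nonneg (b * d)
    linarith
  · intro t t' h h'
    have e1 : l1 e t * l2 e t - l1 e t' * l2 e t' =
        ((a * d + b * c) + (b * d) * (t + t')) * (t - t') := by
      unfold l1 l2
      ring
    rw [e1, abs_mul]
    refine mul_le_mul_of_nonneg_right ?_ (abs_nonneg _)
    have h2 : |t + t'| ≤ 14000 := (abs_add_le _ _).trans (by linarith)
    calc |(a * d + b * c) + (b * d) * (t + t')| ≤ |a * d + b * c| + |(b * d) * (t + t')| :=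
          abs_add_le _ _
      _ = |a * d + b * c| + |b * d| * |t + t'| := by rw [abs_mul (b * d)]
      _ ≤ |a * d + b * c| + |b * d| * 14000 := by
          have := mul_le_mul_of_nonneg_left h2 (abs_nonneg (b * d))
          linarith
      _ ≤ _ := by
          have := abs_nonneg (a * c)
          have := abs_nonneg (a * d + b * c)
          have := abs_nonneg (b * d)
          linarith
  · intro t h
    have e1 : l1 e t * l2 e t = a * c + (a * d + b * c) * t + (b * d) * t ^ 2 := by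
      unfold l1 l2
      ring
    rw [e1]
    have h2 : |t ^ 2| ≤ 49000000 := by
      rw [abs_pow]
      nlinarith only [h, abs_nonneg t]
    calc |a * c + (a * d + b * c) * t + (b * d) * t ^ 2|
        ≤ |a * c| + |(a * d + b * c) * t| + |(b * d) * t ^ 2| := abs_add_three _ _ _
      _ = |a * c| + |a * d + b * c| * |t| + |b * d| * |t ^ 2| := by
          rw [abs_mul (a * d + b * c), abs_mul (b * d)]
      _ ≤ |a * c| + |a * d + b * c| * 7000 + |b * d| * 49000000 := by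
          have h3 := mul_le_mul_of_nonneg_left h (abs_nonneg (a * d + b * c))
          have h4 := mul_le_mul_of_nonneg_left h2 (abs_nonneg (b * d))
          linarith
      _ ≤ _ := by
          have := abs_nonneg (b * d)
          linarith

/-- the primitive part of a vector -/
theorem prim5b {k : ℤ × ℤ} (hk : 0 < k.1) : ∃ n : ℤ × ℤ, Pr n ∧ sp n = tt 0 k ∧
    (k.1 : ℝ) = n.1 * (Int.gcd k.1 k.2 : ℝ) := by
  have hg : 0 < Int.gcd k.1 k.2 := Int.gcd_pos_of_ne_zero_left _ hk.ne'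
  obtain ⟨a, b, hab, ha, hb⟩ := Int.exists_gcd_one hg
  have hgz : (0 : ℤ) < (Int.gcd k.1 k.2 : ℤ) := by exact_mod_cast hg
  have hgr : (0 : ℝ) < (Int.gcd k.1 k.2 : ℝ) := by exact_mod_cast hg
  have ha0 : 0 < a := by
    by_contra h
    push Not at h
    have : k.1 ≤ 0 := by
      rw [ha]
      exact mul_nonpos_of_nonpos_of_nonneg h hgz.le
    omega
  have har : (k.1 : ℝ) = a * (Int.gcd k.1 k.2 : ℝ) := by exact_mod_cast ha
  have hbr : (k.2 : ℝ) = b * (Int.gcd k.1 k.2 : ℝ) := by exact_mod_cast hb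
  refine ⟨(a, b), ⟨Int.isCoprime_iff_gcd_eq_one.2 hab, ha0⟩, ?_, har⟩
  unfold sp tt uu
  rw [zero_mul, add_zero, har, hbr]
  simp only
  rw [mul_div_mul_right _ _ hgr.ne']

theorem gcd_low5b {k : ℤ × ℤ} (hk : 0 < k.1) {D τ w w' : ℝ} (hw : w' ≤ w)
    (h : ∀ n : ℤ × ℤ, Pr n → (n.1 : ℝ) ≤ D → w < |sp n - τ|) (h' : |tt 0 k - τ| ≤ w') :
    D * (Int.gcd k.1 k.2 : ℝ) ≤ k.1 := by
  obtain ⟨n, hn, hsp, hk1⟩ := prim5b hk
  rw [hk1]
  refine mul_le_mul_of_nonneg_right ?_ (Nat.cast_nonneg _)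
  by_contra hlt
  push Not at hlt
  have := h n hn hlt.le
  rw [hsp] at this
  linarith

theorem cut_mono5b {C C' : ℝ} (h : C ≤ C') {I : Finset (ℤ × ℤ)} (hI : Cut C I) : Cut C' I := by
  intro S hS
  obtain ⟨h0, h1⟩ := hI S hS
  refine ⟨h0.trans h, fun a => (h1 a).trans ?_⟩
  refine mul_le_mul_of_nonneg_right (pow_le_pow_left₀ h0 h 12) ?_
  unfold m12
  exact integral_nonneg fun c => by positivity

/-! ### The cone and its arcs -/

theorem cn_pos5b {N : ℕ} {k : ℤ × ℤ} (hk : k ∈ cn N) :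
    0 < k.1 ∧ (k.1 : ℝ) < 2 * N ∧ |tt 0 k| ≤ 1 := by
  unfold cn sqa at hk
  rw [Finset.mem_filter, Finset.mem_filter] at hk
  obtain ⟨⟨_, h1, h2, h3⟩, h4, h5⟩ := hk
  have h0 : 0 < k.1 := by omega
  have h0r : (0 : ℝ) < k.1 := by exact_mod_cast h0
  refine ⟨h0, ?_, ?_⟩
  · rw [abs_of_pos h0] at h2
    exact_mod_cast h2
  · unfold tt uu
    rw [zero_mul, add_zero, abs_div, abs_of_pos h0r, div_le_one h0r, abs_le]
    constructor
    · have : -k.1 ≤ k.2 := h4.le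
      exact_mod_cast this
    · exact_mod_cast h5

theorem arc_sub5b (S : Finset (ℤ × ℤ)) (a r : ℕ) : arc 0 S a r ⊆ S := Finset.filter_subset _ _

theorem arc_fl5b {N' N r : ℕ} {S : Finset (ℤ × ℤ)} (hS : S ⊆ cn N') {k : ℤ × ℤ}
    (hk : k ∈ arc 0 S N r) : 0 ≤ (tt 0 k + 6) / 12 ∧ (r : ℝ) ≤ N * ((tt 0 k + 6) / 12) ∧
      (N : ℝ) * ((tt 0 k + 6) / 12) < r + 1 := by
  unfold arc at hk
  rw [Finset.mem_filter] at hk
  obtain ⟨hkS, hkr⟩ := hk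
  have h1 := (abs_le.1 (cn_pos5b (hS hkS)).2.2).1
  have h0 : 0 ≤ (tt 0 k + 6) / 12 := by linarith only [h1]
  have hx : 0 ≤ (N : ℝ) * ((tt 0 k + 6) / 12) := by positivity
  refine ⟨h0, ?_, ?_⟩
  · have := Nat.floor_le hx
    rwa [hkr] at this
  · have := Nat.lt_floor_add_one ((N : ℝ) * ((tt 0 k + 6) / 12))
    rwa [hkr] at this

theorem arc_near5b {N' N r : ℕ} (hN : 1 ≤ N) {S : Finset (ℤ × ℤ)} (hS : S ⊆ cn N') {k : ℤ × ℤ}
    (hk : k ∈ arc 0 S N r) : |tt 0 k - ctr N r| ≤ 6 / N := by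
  obtain ⟨_, h2, h3⟩ := arc_fl5b hS hk
  have hN' : (0 : ℝ) < N := by exact_mod_cast hN
  unfold ctr
  have e1 : tt 0 k - (12 * ((r : ℝ) + 1 / 2) / N - 6) =
      12 * (N * ((tt 0 k + 6) / 12) - (r + 1 / 2)) / N := by
    field_simp
    ring
  rw [e1, abs_div, abs_of_pos hN', div_le_div_iff_of_pos_right hN', abs_le]
  constructor <;> linarith only [h2, h3]

theorem ctr_sub5b {n J r j : ℕ} (hn : 1 ≤ n) (hj : j < J) :
    |ctr (J * n) (J * r + j) - ctr n r| ≤ 6 / n := by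
  have hn' : (0 : ℝ) < n := by exact_mod_cast hn
  have hJ' : (0 : ℝ) < J := by exact_mod_cast (show 0 < J by omega)
  have hj' : (j : ℝ) + 1 ≤ J := by exact_mod_cast hj
  have hj0 : (0 : ℝ) ≤ j := Nat.cast_nonneg _
  unfold ctr
  push_cast
  have e1 : 12 * ((J : ℝ) * r + j + 1 / 2) / (J * n) - 6 - (12 * ((r : ℝ) + 1 / 2) / n - 6) =
      12 * (j + 1 / 2 - J / 2) / (J * n) := by
    field_simp
    ring
  rw [e1, abs_div, abs_of_pos (mul_pos hJ' hn'), div_le_div_iff₀ (mul_pos hJ' hn') hn']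
  have h1 : |12 * ((j : ℝ) + 1 / 2 - J / 2)| ≤ 6 * J := by
    rw [abs_le]
    constructor <;> linarith only [hj']
  nlinarith only [h1]

theorem ctr_le5b {N i : ℕ} (hi : i < N) : |ctr N i| ≤ 6 := by
  have hN : (0 : ℝ) < N := by exact_mod_cast (show 0 < N by omega)
  have hi' : (i : ℝ) + 1 ≤ N := by exact_mod_cast hi
  have hi0 : (0 : ℝ) ≤ i := Nat.cast_nonneg _
  unfold ctr
  rw [abs_le]
  constructor
  · have : 0 ≤ 12 * ((i : ℝ) + 1 / 2) / N := by positivity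
    linarith only [this]
  · have : 12 * ((i : ℝ) + 1 / 2) / N ≤ 12 := by
      rw [div_le_iff₀ hN]
      linarith only [hi']
    linarith only [this]

theorem arcsub5b {e : Fr} {B X : ℝ}
    (hfib : ∀ (S : Finset (ℤ × ℤ)) (g : ℤ × ℤ → ℕ) (P : Finset ℕ), (∀ k ∈ S, g k ∈ P) →
      RI e B X S ≤ ENNReal.ofReal ((P.card : ℝ) ^ 11) *
        ∑ i ∈ P, RI e B X (S.filter (fun k => g k = i)))
    {N n J : ℕ} {G : Finset (ℤ × ℤ)} (hG : G ⊆ cn N) (hJ : 1 ≤ J) (r : ℕ) :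
    RI e B X (arc 0 G n r) ≤ ENNReal.ofReal ((J : ℝ) ^ 11) *
      ∑ j ∈ Finset.range J, RI e B X (arc 0 (arc 0 G n r) (J * n) (J * r + j)) := by
  have h := hfib (arc 0 G n r) (fun k => ⌊((J * n : ℕ) : ℝ) * ((tt 0 k + 6) / 12)⌋₊)
    (Finset.Ico (J * r) (J * r + J)) ?_
  · rw [Nat.card_Ico, Nat.add_sub_cancel_left, Finset.sum_Ico_eq_sum_range,
      Nat.add_sub_cancel_left] at h
    exact h
  · intro k hk
    obtain ⟨h0, h1, h2⟩ := arc_fl5b hG hk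
    have hJ' : (0 : ℝ) < J := by exact_mod_cast hJ
    set x := (tt 0 k + 6) / 12 with hx
    have hx1 : 0 ≤ ((J * n : ℕ) : ℝ) * x := by positivity
    rw [Finset.mem_Ico]
    constructor
    · apply Nat.le_floor
      push_cast
      nlinarith only [h1]
    · rw [Nat.floor_lt hx1]
      push_cast
      nlinarith only [hJ', h2]

theorem near5b {a Q n2 s τ c : ℝ} (ha : Q ≤ 8 * a) (hQ : 0 < Q) (h2 : n2 ≤ 96 * Q ^ 2)
    (hn2 : 0 < n2) (h : a ^ 2 * |s - τ| ≤ c) :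
    |s - τ| ≤ 64 * c / Q ^ 2 ∧ |s - τ| ≤ 6144 * c / n2 := by
  have h3 : Q ^ 2 ≤ 64 * a ^ 2 := by nlinarith only [ha, hQ]
  have h4 : Q ^ 2 * |s - τ| ≤ 64 * c := by
    have := mul_le_mul_of_nonneg_right h3 (abs_nonneg (s - τ))
    linarith
  constructor
  · rw [le_div_iff₀ (by positivity)]
    linarith
  · rw [le_div_iff₀ hn2]
    have := mul_le_mul_of_nonneg_right h2 (abs_nonneg (s - τ))
    linarith

theorem exJ5b {M m₂ : ℕ} (hM : 2 ≤ M) {Q : ℝ} (h : (M : ℝ) ^ m₂ ≤ 96 * Q ^ 2) :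
    ∃ J : ℕ, 1 ≤ J ∧ 384 * Q ^ 2 ≤ J * (M : ℝ) ^ m₂ ∧ J * (M : ℝ) ^ m₂ ≤ 384 * M * Q ^ 2 := by
  have hM' : (1 : ℝ) < M := by exact_mod_cast hM
  have h0 : (0 : ℝ) < (M : ℝ) ^ m₂ := by positivity
  have h1 : 1 ≤ 384 * Q ^ 2 / (M : ℝ) ^ m₂ := by
    rw [le_div_iff₀ h0]
    linarith
  obtain ⟨n, hn1, hn2⟩ := exists_nat_pow_near h1 hM'
  rw [le_div_iff₀ h0] at hn1
  rw [div_lt_iff₀ h0] at hn2
  refine ⟨M ^ (n + 1), Nat.one_le_pow _ _ (by omega), ?_, ?_⟩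
  · push_cast
    exact hn2.le
  · push_cast
    rw [pow_succ]
    nlinarith only [hn1]

/-! ### The moment through the states -/

theorem beta5b {e : Fr} {ε ε₀ B : ℝ} {M : ℕ} (hM : 2 ≤ M)
    (hr2 : ∀ β : ℝ, 1 ≤ β → ∃ C : ℝ, 1 ≤ C ∧
      ∀ (ι : Type) (P : Finset ι) (I : ι → Finset (ℤ × ℤ)) (n : ι → ℤ × ℤ) (X U σ : ℝ) (N : ℕ),
        1 ≤ X → 1 ≤ N → (N : ℝ) ≤ X → 1 ≤ U → 0 < σ → σ ≤ β →
        (∀ p ∈ P, Pr (n p) ∧ U ≤ β * (n p).1 ∧ ((n p).1 : ℝ) ≤ β * U ∧ |sp (n p)| ≤ β ∧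
          σ ≤ |l1 e (sp (n p)) * l2 e (sp (n p))|) →
        (∀ p ∈ P, Cut β (I p) ∧ I p ⊆ cn N ∧ ∀ k ∈ I p, ((n p).1 : ℝ) ^ 2 * |tt 0 k - sp (n p)| ≤ 2 ∧
          |tt 0 k - sp (n p)| ^ 4 * (X * N) ≤ β) →
        (∀ v : ℤ × ℤ, ((P.filter (fun p => n p = v)).card : ℝ) ≤ β) →
          ∑ p ∈ P, RI e B X (I p) ≤
            ENNReal.ofReal (C * (X * N) ^ ε * (X / σ) * U ^ (-(10 : ℝ)) * BB N (X * N)))
    (hfib : ∀ (X : ℝ) (S : Finset (ℤ × ℤ)) (g : ℤ × ℤ → ℕ) (P : Finset ℕ), (∀ k ∈ S, g k ∈ P) →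
      RI e B X S ≤ ENNReal.ofReal ((P.card : ℝ) ^ 11) *
        ∑ i ∈ P, RI e B X (S.filter (fun k => g k = i)))
    (hcut : ∀ N a r a' r' a'' r'' : ℕ, 1 ≤ a → 1 ≤ a' → 1 ≤ a'' →
      Cut (24 ^ 12) (arc 0 (arc 0 (arc 0 (cn N) a r) a' r') a'' r''))
    (hsub : ∀ D Q τ τ' : ℝ, 1 ≤ D → D ≤ 2 * Q → ∀ n : ℤ × ℤ, Pr n → (n.1 : ℝ) ≤ D →
      2 * |τ' - τ| < |sp n - τ| → Q * ((n.1 : ℝ) * |sp n - τ|) ≤ 1 →
      1 ≤ 2 * Q * ((n.1 : ℝ) * |sp n - τ|) →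
      ∃ n' : ℤ × ℤ, Pr n' ∧ Q ≤ 8 * (n'.1 : ℝ) ∧ (n'.1 : ℝ) ≤ 8 * Q ∧
        |sp n' - τ'| * (n'.1 : ℝ) ^ 2 ≤ 1)
    {L : ℝ} (hL : 1 ≤ L)
    (hL1 : ∀ t t' : ℝ, |t| ≤ 7000 → |t'| ≤ 7000 →
      |l1 e t * l2 e t - l1 e t' * l2 e t'| ≤ L * |t - t'|)
    (hL2 : ∀ t : ℝ, |t| ≤ 7000 → |l1 e t * l2 e t| ≤ L) :
    ∃ C : ℝ, 1 ≤ C ∧ ∀ (X σ D Q : ℝ) (N m₀ m₂ r₀ : ℕ) (P : Finset ℕ),
      Par e M ε₀ X σ N m₀ m₂ r₀ → 1 ≤ D → 24 * D ^ 2 = (M : ℝ) ^ m₂ → D ≤ 2 * Q →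
      P ⊆ Finset.range (M ^ m₂) → (N : ℝ) ≤ X → 12312 * L ≤ (X * N) ^ ε₀ →
      (∀ r ∈ P, (∀ n : ℤ × ℤ, Pr n → (n.1 : ℝ) ≤ D →
          24 / (M ^ m₂ : ℕ) < |sp n - ctr (M ^ m₂) r|) ∧
        ∃ n : ℤ × ℤ, Pr n ∧ (n.1 : ℝ) ≤ D ∧ Q * ((n.1 : ℝ) * |sp n - ctr (M ^ m₂) r|) ≤ 1 ∧
          1 ≤ 2 * Q * ((n.1 : ℝ) * |sp n - ctr (M ^ m₂) r|)) →
        ∑ r ∈ P, RI e B X (arc 0 (arc 0 (cn N) (M ^ m₀) r₀) (M ^ m₂) r) ≤
          ENNReal.ofReal (C * (X * N) ^ ε * X * (M : ℝ) ^ m₀ * Q ^ 12 / ((M : ℝ) ^ m₂) ^ 11 *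
            BB N (X * N)) := by
  have hM' : (2 : ℝ) ≤ M := by exact_mod_cast hM
  set β : ℝ := 24 ^ 12 + 7000 + L + (12288 * M) ^ 4 + 4097 * M with hβ
  have hM4 : 0 ≤ (12288 * (M : ℝ)) ^ 4 := by positivity
  have hβ1 : 1 ≤ β := by
    rw [hβ]
    linarith
  obtain ⟨C, hC, h⟩ := hr2 β hβ1
  refine ⟨2 * (384 * M) ^ 11 * C, ?_, ?_⟩
  · have h1 : (1 : ℝ) ≤ (384 * (M : ℝ)) ^ 11 := one_le_pow₀ (by linarith)
    have h2 : (1 : ℝ) ≤ (384 * (M : ℝ)) ^ 11 * C := one_le_mul_of_one_le_of_one_le h1 hC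
    rw [mul_assoc]
    linarith
  intro X σ D Q N m₀ m₂ r₀ P hP hD hDn hDQ hPr hNX hK hcl
  have hX := hP.X1
  have hN := hP.N1
  have hNr : (1 : ℝ) ≤ N := by exact_mod_cast hN
  have hX0 : 0 < X := by linarith
  have hK1 : 1 ≤ X * N := one_le_mul_of_one_le_of_one_le hX hNr
  have hσ := hP.σ0
  have hσm := hP.σm
  have hk2 := hP.k2
  have hmm := hP.m
  have hgd := hP.gd
  have hn21 : (M : ℝ) ^ m₀ ≤ (M : ℝ) ^ m₂ := pow_le_pow_right₀ (by linarith only [hM']) hmm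
  have hn1 : (1 : ℝ) ≤ (M : ℝ) ^ m₀ := one_le_pow₀ (by linarith only [hM'])
  have hk3 : X * N < (M : ℝ) ^ 4 * ((M : ℝ) ^ m₂) ^ 4 := by
    have e1 : (M : ℝ) ^ (4 * m₂ + 4) = (M : ℝ) ^ 4 * ((M : ℝ) ^ m₂) ^ 4 := by
      rw [pow_add, mul_comm 4 m₂, pow_mul, mul_comm]
    rwa [e1] at hk2
  have hcN : ((M ^ m₂ : ℕ) : ℝ) = (M : ℝ) ^ m₂ := by push_cast; rfl
  have hone : 1 ≤ M ^ m₂ := Nat.one_le_pow _ _ (by omega)
  have hone0 : 1 ≤ M ^ m₀ := Nat.one_le_pow _ _ (by omega)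
  have hcl' : ∀ r ∈ P, (∀ n : ℤ × ℤ, Pr n → (n.1 : ℝ) ≤ D →
          24 / (M : ℝ) ^ m₂ < |sp n - ctr (M ^ m₂) r|) ∧
        ∃ n : ℤ × ℤ, Pr n ∧ (n.1 : ℝ) ≤ D ∧ Q * ((n.1 : ℝ) * |sp n - ctr (M ^ m₂) r|) ≤ 1 ∧
          1 ≤ 2 * Q * ((n.1 : ℝ) * |sp n - ctr (M ^ m₂) r|) := by
    rw [← hcN]
    exact hcl
  set n2 : ℝ := (M : ℝ) ^ m₂ with hn2
  set n1 : ℝ := (M : ℝ) ^ m₀ with hn1'
  have hn24 : 24 ≤ n2 := by
    have := one_le_pow₀ hD (n := 2)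
    linarith only [hDn, this]
  have hn20 : 0 < n2 := by linarith only [hn24]
  have hQ : 1 ≤ 2 * Q := hD.trans hDQ
  have hQ0 : 0 < Q := by linarith only [hD, hDQ]
  have hn2Q : n2 ≤ 96 * Q ^ 2 := by
    have h1 := pow_le_pow_left₀ (by linarith only [hD] : (0 : ℝ) ≤ D) hDQ 2
    have h2 : (2 * Q) ^ 2 = 4 * Q ^ 2 := by ring
    linarith
  obtain ⟨J, hJ1, hJa, hJb⟩ := exJ5b hM hn2Q
  rw [← hn2] at hJa hJb
  have hJ0 : (0 : ℝ) < J := by exact_mod_cast hJ1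
  set G := arc 0 (cn N) (M ^ m₀) r₀ with hG
  have hGc : G ⊆ cn N := arc_sub5b _ _ _
  have hSc : ∀ r, arc 0 G (M ^ m₂) r ⊆ cn N := fun r => (arc_sub5b _ _ _).trans hGc
  set I : ℕ × ℕ → Finset (ℤ × ℤ) :=
    fun p => arc 0 (arc 0 G (M ^ m₂) p.1) (J * M ^ m₂) (J * p.1 + p.2) with hI
  have hIc : ∀ p, I p ⊆ cn N := fun p => (arc_sub5b _ _ _).trans (hSc _)
  have hJn : 1 ≤ J * M ^ m₂ := Nat.one_le_iff_ne_zero.2 (by positivity)
  have hJnr : ((J * M ^ m₂ : ℕ) : ℝ) = J * n2 := by push_cast; rfl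
  have hσn : 1 / σ ≤ n1 := by
    rw [div_le_iff₀ hσ]
    linarith only [hL, hK, hσm]
  rcases (P.filter (fun r => (arc 0 G (M ^ m₂) r).Nonempty)).eq_empty_or_nonempty with hE | hE
  · have h0 : ∑ r ∈ P, RI e B X (arc 0 G (M ^ m₂) r) = 0 := by
      refine Finset.sum_eq_zero fun r hr => ?_
      have h1 : ¬ (arc 0 G (M ^ m₂) r).Nonempty := fun hne => by
        have h2 : r ∈ P.filter (fun r => (arc 0 G (M ^ m₂) r).Nonempty) :=
          Finset.mem_filter.2 ⟨hr, hne⟩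
        rw [hE] at h2
        exact absurd h2 (Finset.notMem_empty _)
      rw [Finset.not_nonempty_iff_eq_empty.1 h1]
      exact RI_empty5b e B X
    rw [h0]
    exact zero_le
  set P' := P.filter (fun r => (arc 0 G (M ^ m₂) r).Nonempty) with hP'
  have hch : ∀ p : ℕ × ℕ, ∃ n' : ℤ × ℤ, p ∈ P' ×ˢ Finset.range J → Pr n' ∧
      Q ≤ 8 * (n'.1 : ℝ) ∧ (n'.1 : ℝ) ≤ 8 * Q ∧
      |sp n' - ctr (J * M ^ m₂) (J * p.1 + p.2)| * (n'.1 : ℝ) ^ 2 ≤ 1 := by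
    intro p
    by_cases hp : p ∈ P' ×ˢ Finset.range J
    · obtain ⟨h1, h2⟩ := Finset.mem_product.1 hp
      have h3 := Finset.mem_range.1 h2
      have h4 := (Finset.mem_filter.1 h1).1
      obtain ⟨ha, n, hn, hnD, hn3, hn4⟩ := hcl' _ h4
      have h5 := ctr_sub5b (n := M ^ m₂) (r := p.1) hone h3
      rw [hcN] at h5
      have h6 := ha n hn hnD
      have h7 : 2 * |ctr (J * M ^ m₂) (J * p.1 + p.2) - ctr (M ^ m₂) p.1| <
          |sp n - ctr (M ^ m₂) p.1| := by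
        refine lt_of_le_of_lt ?_ h6
        have e2 : 24 / n2 = 4 * (6 / n2) := by ring
        have e3 : 0 < 6 / n2 := by positivity
        rw [e2]
        linarith only [h5, e3]
      obtain ⟨n', hn'⟩ := hsub D Q _ _ hD hDQ n hn hnD h7 hn3 hn4
      exact ⟨n', fun _ => hn'⟩
    · exact ⟨(0, 0), fun h => absurd h hp⟩
  choose n hn using hch
  -- the facts for one index
  have hfact : ∀ p ∈ P' ×ˢ Finset.range J, (1 : ℝ) ≤ (n p).1 ∧ |sp (n p)| ≤ 7 ∧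
      |ctr (J * M ^ m₂) (J * p.1 + p.2) - sp (n p)| ≤ 64 / Q ^ 2 ∧
      |ctr (J * M ^ m₂) (J * p.1 + p.2) - sp (n p)| ≤ 6144 / n2 := by
    intro p hp
    obtain ⟨hpr, ha, hb, hc⟩ := hn p hp
    obtain ⟨h1, h2⟩ := Finset.mem_product.1 hp
    have h3 := Finset.mem_range.1 h2
    have h4 := Finset.mem_range.1 (hPr (Finset.mem_filter.1 h1).1)
    have h5 : (1 : ℝ) ≤ (n p).1 := by exact_mod_cast hpr.2
    have h6 : J * p.1 + p.2 < J * M ^ m₂ := by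
      calc J * p.1 + p.2 < J * p.1 + J := by omega
        _ = J * (p.1 + 1) := by ring
        _ ≤ J * M ^ m₂ := Nat.mul_le_mul_left _ h4
    have h7 := ctr_le5b h6
    have h8 : |sp (n p) - ctr (J * M ^ m₂) (J * p.1 + p.2)| ≤ 1 := by
      have : (1 : ℝ) ≤ ((n p).1 : ℝ) ^ 2 := one_le_pow₀ h5
      exact (le_mul_of_one_le_right (abs_nonneg _) this).trans hc
    have h9 := near5b (s := sp (n p)) (τ := ctr (J * M ^ m₂) (J * p.1 + p.2)) (c := 1) ha hQ0 hn2Q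
      hn20 (by rw [mul_comm]; exact hc)
    rw [abs_sub_comm (sp (n p))] at h9
    refine ⟨h5, ?_, by simpa using h9.1, by simpa using h9.2⟩
    have h10 : sp (n p) = (sp (n p) - ctr (J * M ^ m₂) (J * p.1 + p.2)) +
        ctr (J * M ^ m₂) (J * p.1 + p.2) := by ring
    rw [h10]
    exact (abs_add_le _ _).trans (by linarith only [h7, h8])
  have hσL : σ ≤ L := by
    obtain ⟨r, hr⟩ := hE
    obtain ⟨k, hk⟩ := (Finset.mem_filter.1 hr).2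
    have h1 := hgd k (arc_sub5b _ _ _ hk)
    have h2 := (cn_pos5b (hSc _ hk)).2.2
    exact h1.1.trans (hL2 _ (by linarith only [h2]))
  have hmain := h (ℕ × ℕ) (P' ×ˢ Finset.range J) I n X (2 * Q) (σ / 2) N hX hN hNX hQ
    (by linarith only [hσ]) (by rw [hβ]; linarith only [hL, hM', hM4, hσL]) ?_ ?_ ?_
  · -- the conclusion
    have hs1 : ∑ r ∈ P, RI e B X (arc 0 G (M ^ m₂) r) =
        ∑ r ∈ P', RI e B X (arc 0 G (M ^ m₂) r) := by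
      rw [hP', Finset.sum_filter_of_ne]
      intro r _ hne
      by_contra h1
      rw [Finset.not_nonempty_iff_eq_empty.1 h1] at hne
      exact hne (RI_empty5b e B X)
    rw [hs1]
    calc ∑ r ∈ P', RI e B X (arc 0 G (M ^ m₂) r)
        ≤ ∑ r ∈ P', ENNReal.ofReal ((J : ℝ) ^ 11) * ∑ j ∈ Finset.range J, RI e B X (I (r, j)) :=
          Finset.sum_le_sum fun r _ => arcsub5b (hfib X) hGc hJ1 r
      _ = ENNReal.ofReal ((J : ℝ) ^ 11) * ∑ p ∈ P' ×ˢ Finset.range J, RI e B X (I p) := by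
          rw [← Finset.mul_sum, Finset.sum_product]
      _ ≤ ENNReal.ofReal ((J : ℝ) ^ 11) * ENNReal.ofReal (C * (X * N) ^ ε * (X / (σ / 2)) *
            (2 * Q) ^ (-(10 : ℝ)) * BB N (X * N)) := by gcongr
      _ = ENNReal.ofReal ((J : ℝ) ^ 11 * (C * (X * N) ^ ε * (X / (σ / 2)) *
            (2 * Q) ^ (-(10 : ℝ)) * BB N (X * N))) := by
          rw [ENNReal.ofReal_mul (p := (J : ℝ) ^ 11) (by positivity)]
      _ ≤ _ := by
          refine ENNReal.ofReal_le_ofReal ?_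
          have hBB : 0 ≤ BB N (X * N) := by
            unfold BB
            positivity
          have hKe : 0 ≤ (X * (N : ℝ)) ^ ε := by positivity
          have e1 : (2 * Q) ^ (-(10 : ℝ)) ≤ 1 / Q ^ 10 := by
            rw [Real.rpow_neg (by positivity), ← one_div]
            rw [show ((10 : ℝ)) = ((10 : ℕ) : ℝ) by norm_num, Real.rpow_natCast]
            refine one_div_le_one_div_of_le (by positivity) ?_
            exact pow_le_pow_left₀ hQ0.le (by linarith only [hQ0]) 10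
          have e2 : X / (σ / 2) ≤ 2 * X * n1 := by
            have : X / (σ / 2) = 2 * X * (1 / σ) := by
              field_simp
            rw [this]
            exact mul_le_mul_of_nonneg_left hσn (by positivity)
          have e3 : (J : ℝ) ^ 11 ≤ (384 * M) ^ 11 * Q ^ 22 / n2 ^ 11 := by
            rw [le_div_iff₀ (by positivity), ← mul_pow]
            calc ((J : ℝ) * n2) ^ 11 ≤ (384 * M * Q ^ 2) ^ 11 :=
                  pow_le_pow_left₀ (by positivity) hJb 11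
              _ = _ := by ring
          have e4 : 0 ≤ (2 * Q) ^ (-(10 : ℝ)) := by positivity
          calc (J : ℝ) ^ 11 * (C * (X * N) ^ ε * (X / (σ / 2)) * (2 * Q) ^ (-(10 : ℝ)) *
                BB N (X * N))
              ≤ ((384 * M) ^ 11 * Q ^ 22 / n2 ^ 11) * (C * (X * N) ^ ε * (2 * X * n1) *
                (1 / Q ^ 10) * BB N (X * N)) := by (clear * - e3 e2 hC hX hN e1 hQ0 hM hBB hσ; gcongr)
            _ = _ := by
                field_simp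
  · -- first condition
    intro p hp
    obtain ⟨hpr, ha, hb, hc⟩ := hn p hp
    obtain ⟨h1, h2, h3, h4⟩ := hfact p hp
    have hβ16 : 16 ≤ β := by
      rw [hβ]
      linarith only [hL, hM', hM4]
    refine ⟨hpr, ?_, ?_, ?_, ?_⟩
    · have h19 := mul_le_mul_of_nonneg_right hβ16 (show (0 : ℝ) ≤ (n p).1 by linarith only [h1])
      linarith only [ha, h19]
    · have h19 := mul_le_mul_of_nonneg_right hβ16 (show (0 : ℝ) ≤ 2 * Q by linarith only [hD, hDQ])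
      linarith only [hQ0, hb, h19]
    · exact h2.trans (by rw [hβ]; linarith only [hL, hM', hM4])
    · obtain ⟨hp1, hp2⟩ := Finset.mem_product.1 hp
      obtain ⟨k, hk⟩ := (Finset.mem_filter.1 hp1).2
      have h5 := (hgd k (arc_sub5b _ _ _ hk)).1
      have h6 := arc_near5b hone hGc hk
      have h7 := ctr_sub5b (n := M ^ m₂) (r := p.1) hone (Finset.mem_range.1 hp2)
      rw [hcN] at h6 h7
      have h8 : |tt 0 k - sp (n p)| ≤ 6156 / n2 := by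
        have e1 : tt 0 k - sp (n p) = (tt 0 k - ctr (M ^ m₂) p.1) +
            (-(ctr (J * M ^ m₂) (J * p.1 + p.2) - ctr (M ^ m₂) p.1)) +
            (ctr (J * M ^ m₂) (J * p.1 + p.2) - sp (n p)) := by ring
        rw [e1]
        refine (abs_add_three _ _ _).trans ?_
        rw [abs_neg]
        have e2 : 6156 / n2 = 6 / n2 + 6 / n2 + 6144 / n2 := by ring
        rw [e2]
        linarith only [h4, h6, h7]
      have h9 := (cn_pos5b (hSc _ hk)).2.2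
      have h10 := hL1 (tt 0 k) (sp (n p)) (by linarith only [h9]) (by linarith only [h2])
      have h11 : L * |tt 0 k - sp (n p)| ≤ σ / 2 := by
        have h12 : 12312 * L ≤ σ * n2 := by
          have := mul_le_mul_of_nonneg_left hn21 hσ.le
          linarith only [hK, hσm, this]
        have h13 : L * (6156 / n2) ≤ σ / 2 := by
          rw [← mul_div_assoc, div_le_iff₀ hn20]
          linarith only [h12]
        exact (mul_le_mul_of_nonneg_left h8 (by linarith only [hL])).trans h13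
      have h14 := abs_sub_abs_le_abs_sub (l1 e (tt 0 k) * l2 e (tt 0 k))
        (l1 e (sp (n p)) * l2 e (sp (n p)))
      linarith only [h5, h10, h11, h14]
  · -- second condition
    intro p hp
    obtain ⟨hpr, ha, hb, hc⟩ := hn p hp
    obtain ⟨h1, h2, h3, h4⟩ := hfact p hp
    refine ⟨cut_mono5b (by rw [hβ]; linarith only [hL, hM', hM4]) (hcut N _ _ _ _ _ _ hone0 hone hJn), hIc p, ?_⟩
    intro k hk
    have h5 := arc_near5b hJn (hSc _) hk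
    rw [hJnr] at h5
    have hJn0 : 0 < (J : ℝ) * n2 := by positivity
    have h6 : ((n p).1 : ℝ) ^ 2 ≤ 64 * Q ^ 2 := by
      have e1 := pow_le_pow_left₀ (by linarith only [h1] : (0 : ℝ) ≤ (n p).1) hb 2
      have e2 : (8 * Q) ^ 2 = 64 * Q ^ 2 := by ring
      linarith only [e1]
    have h7 : ((n p).1 : ℝ) ^ 2 * |tt 0 k - sp (n p)| ≤ 2 := by
      have e1 : tt 0 k - sp (n p) = (tt 0 k - ctr (J * M ^ m₂) (J * p.1 + p.2)) +
            (-(sp (n p) - ctr (J * M ^ m₂) (J * p.1 + p.2))) := by ring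
      have e2 : |tt 0 k - sp (n p)| ≤ 6 / (J * n2) +
          |sp (n p) - ctr (J * M ^ m₂) (J * p.1 + p.2)| := by
        rw [e1]
        refine (abs_add_le _ _).trans ?_
        rw [abs_neg]
        linarith only [h5]
      have e3 : ((n p).1 : ℝ) ^ 2 * (6 / (J * n2)) ≤ 1 := by
        rw [← mul_div_assoc, div_le_one hJn0]
        linarith only [hJa, h6]
      calc ((n p).1 : ℝ) ^ 2 * |tt 0 k - sp (n p)|
          ≤ ((n p).1 : ℝ) ^ 2 * (6 / (J * n2) +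
            |sp (n p) - ctr (J * M ^ m₂) (J * p.1 + p.2)|) :=
            mul_le_mul_of_nonneg_left e2 (by positivity)
        _ = ((n p).1 : ℝ) ^ 2 * (6 / (J * n2)) +
            |sp (n p) - ctr (J * M ^ m₂) (J * p.1 + p.2)| * ((n p).1 : ℝ) ^ 2 := by ring
        _ ≤ 2 := by linarith only [hc, e3]
    refine ⟨h7, ?_⟩
    have h8 := (near5b ha hQ0 hn2Q hn20 h7).2
    have h9 : |tt 0 k - sp (n p)| ^ 4 ≤ (12288 / n2) ^ 4 :=
      pow_le_pow_left₀ (abs_nonneg _) (h8.trans (le_of_eq (by ring))) 4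
    calc |tt 0 k - sp (n p)| ^ 4 * (X * N)
        ≤ (12288 / n2) ^ 4 * ((M : ℝ) ^ 4 * n2 ^ 4) := by (clear * - h9 hk3 hX hN hM; gcongr)
      _ = (12288 * (M : ℝ)) ^ 4 := by
          field_simp
      _ ≤ β := by
          rw [hβ]
          linarith only [hL, hM']
  · -- third condition
    intro v
    set T := (P' ×ˢ Finset.range J).filter (fun p => n p = v) with hT
    have hinj : Set.InjOn (fun p : ℕ × ℕ => J * p.1 + p.2) (T : Set (ℕ × ℕ)) := by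
      intro p hp q hq hpq
      have hp2 := Finset.mem_range.1 (Finset.mem_product.1 (Finset.mem_filter.1 hp).1).2
      have hq2 := Finset.mem_range.1 (Finset.mem_product.1 (Finset.mem_filter.1 hq).1).2
      simp only at hpq
      have h1 : p.1 = q.1 := by
        have h2 : (J * p.1 + p.2) / J = (J * q.1 + q.2) / J := by rw [hpq]
        rwa [Nat.mul_add_div (by omega), Nat.mul_add_div (by omega), Nat.div_eq_of_lt hp2,
          Nat.div_eq_of_lt hq2, add_zero, add_zero] at h2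
      have h3 : p.2 = q.2 := by
        rw [h1] at hpq
        omega
      exact Prod.ext h1 h3
    rw [← Finset.card_image_of_injOn hinj]
    have h1 := ctr_card5b hJn (T.image (fun p : ℕ × ℕ => J * p.1 + p.2)) (sp v) (64 / Q ^ 2)
      (by positivity) ?_
    · refine h1.trans ?_
      rw [hJnr]
      have e1 : 64 / Q ^ 2 * (J * n2) / 6 ≤ 4096 * M := by
        have e2 : 64 / Q ^ 2 * (J * n2) / 6 ≤ 64 / Q ^ 2 * (384 * M * Q ^ 2) / 6 := by (clear * - hJb hQ0; gcongr)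
        refine e2.trans (le_of_eq ?_)
        field_simp
        ring
      rw [hβ]
      linarith only [hL, hM', hM4, e1]
    · intro i hi
      obtain ⟨p, hp, rfl⟩ := Finset.mem_image.1 hi
      obtain ⟨hp1, hp2⟩ := Finset.mem_filter.1 hp
      rw [← hp2]
      exact (hfact p hp1).2.2.1

/-! ### Numbers -/

theorem log5b {η X D : ℝ} (hη : 0 < η) (hX : 1 ≤ X) (hD : 1 ≤ D) (hDX : D ≤ X ^ 2) :
    (1 + log D) ^ 6 ≤ (1 + 48 / η) ^ 6 * X ^ (η / 4) := by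
  have hX0 : 0 ≤ X := by linarith
  have h1 : log D ≤ D ^ (η / 48) / (η / 48) := Real.log_le_rpow_div (by linarith) (by positivity)
  have h2 : D ^ (η / 48) ≤ X ^ (η / 24) := by
    calc D ^ (η / 48) ≤ (X ^ 2) ^ (η / 48) := Real.rpow_le_rpow (by linarith) hDX (by positivity)
      _ = X ^ (η / 24) := by
          rw [← Real.rpow_natCast, ← Real.rpow_mul hX0]
          congr 1
          push_cast
          ring
  have h3 : 1 ≤ X ^ (η / 24) := Real.one_le_rpow hX (by positivity)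
  have h4 : 1 + log D ≤ (1 + 48 / η) * X ^ (η / 24) := by
    have e1 : D ^ (η / 48) / (η / 48) = 48 / η * D ^ (η / 48) := by
      field_simp
    rw [e1] at h1
    have h5 := mul_le_mul_of_nonneg_left h2 (show 0 ≤ 48 / η by positivity)
    linarith only [h1, h3, h5]
  have h5 : 0 ≤ 1 + log D := by
    have := Real.log_nonneg hD
    linarith only [this]
  calc (1 + log D) ^ 6 ≤ ((1 + 48 / η) * X ^ (η / 24)) ^ 6 := pow_le_pow_left₀ h5 h4 6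
    _ = (1 + 48 / η) ^ 6 * X ^ (η / 4) := by
        rw [mul_pow, ← Real.rpow_natCast (X ^ (η / 24)), ← Real.rpow_mul hX0]
        congr 2
        push_cast
        ring

theorem fin5b {e : Fr} {B X : ℝ} {G : Finset (ℤ × ℤ)} {n : ℕ} {P : Finset ℕ} {V : ℝ} (hV : 0 ≤ V)
    (h : ∑ r ∈ P, RI e B X (arc 0 G n r) ≤ ENNReal.ofReal V) :
    SS e B X G n P ≤ ENNReal.ofReal ((P.card : ℝ) ^ 5 * V + (P.card : ℝ) ^ 6) := by
  refine (SS_le5b e B X G n P).trans ?_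
  have hc : (P.card : ENNReal) = ENNReal.ofReal (P.card : ℝ) := (ENNReal.ofReal_natCast _).symm
  have hc0 : (0 : ℝ) ≤ P.card := Nat.cast_nonneg _
  calc (P.card : ENNReal) ^ 5 * (∑ r ∈ P, RI e B X (arc 0 G n r) + P.card)
      ≤ (P.card : ENNReal) ^ 5 * (ENNReal.ofReal V + P.card) := by gcongr
    _ = ENNReal.ofReal ((P.card : ℝ) ^ 5 * V + (P.card : ℝ) ^ 6) := by
        rw [hc, ← ENNReal.ofReal_pow hc0, ← ENNReal.ofReal_add hV hc0,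
          ← ENNReal.ofReal_mul (by positivity)]
        congr 1
        ring

theorem sect5b {e : Fr} {η B C₃ : ℝ} (hC₃ : 1 ≤ C₃)
    (hsec : ∀ (X : ℝ) (N : ℕ) (W D τ : ℝ) (S : Finset (ℤ × ℤ)), 1 ≤ X → 1 ≤ N →
      (N : ℝ) ≤ X → 0 ≤ W → W ≤ 2 → 1 ≤ D → S ⊆ cn N → (∀ k ∈ S, |tt 0 k - τ| ≤ W) →
      (∀ k ∈ S, D * (Int.gcd k.1 k.2 : ℝ) ≤ k.1) →
        RI e B X S ≤ ENNReal.ofReal (C₃ * X ^ (1 + η) * (N ^ 2 * W + N / D) ^ 7 *
          (N ^ 2 * W + (N / D) ^ 2) ^ 2 * (1 + N ^ 3 / X)))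
    {X n2 D τ : ℝ} {N : ℕ} {S : Finset (ℤ × ℤ)} (hX : 1 ≤ X) (hN : 1 ≤ N) (hNX : (N : ℝ) ≤ X)
    (hD : 1 ≤ D) (hDn : 24 * D ^ 2 = n2) (hS : S ⊆ cn N) (hnear : ∀ k ∈ S, |tt 0 k - τ| ≤ 6 / n2)
    (hfar : ∀ n : ℤ × ℤ, Pr n → (n.1 : ℝ) ≤ D → 24 / n2 < |sp n - τ|) :
    RI e B X S ≤ ENNReal.ofReal (C₃ * X ^ (1 + η) * (54 * (N ^ 2 / n2)) ^ 9 * (1 + N ^ 3 / X)) := by
  rcases S.eq_empty_or_nonempty with rfl | ⟨k₀, hk₀⟩
  · rw [RI_empty5b]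
    exact zero_le
  have hD0 : 0 < D := by linarith only [hD]
  have hn2 : 24 ≤ n2 := by
    have := one_le_pow₀ hD (n := 2)
    linarith only [hDn, this]
  have hn20 : 0 < n2 := by linarith
  have hX0 : 0 < X := by linarith
  have hNr : (1 : ℝ) ≤ N := by exact_mod_cast hN
  have hww : 6 / n2 ≤ 24 / n2 := by
    rw [div_le_div_iff_of_pos_right hn20]
    norm_num
  have hgcd : ∀ k ∈ S, D * (Int.gcd k.1 k.2 : ℝ) ≤ k.1 := fun k hk =>
    gcd_low5b (cn_pos5b (hS hk)).1 hww hfar (hnear k hk)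
  have hDN : D ≤ 2 * N := by
    obtain ⟨h1, h2, _⟩ := cn_pos5b (hS hk₀)
    have h3 : (1 : ℝ) ≤ (Int.gcd k₀.1 k₀.2 : ℝ) := by
      exact_mod_cast Int.gcd_pos_of_ne_zero_left _ h1.ne'
    have h4 := hgcd k₀ hk₀
    nlinarith only [h2, h4, h3]
  refine (hsec X N (6 / n2) D τ S hX hN hNX (by positivity) ?_ hD hS hnear hgcd).trans ?_
  · rw [div_le_iff₀ hn20]
    linarith
  refine ENNReal.ofReal_le_ofReal ?_
  have h1 : (N : ℝ) / D ≤ 48 * ((N : ℝ) ^ 2 / n2) := by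
    have e1 : 48 * ((N : ℝ) ^ 2 / n2) = 2 * N ^ 2 / D ^ 2 := by
      rw [← hDn]
      field_simp
      ring
    rw [e1, div_le_div_iff₀ hD0 (by positivity)]
    have h5 : (N : ℝ) * D * D ≤ N * D * (2 * N) := mul_le_mul_of_nonneg_left hDN (by positivity)
    nlinarith only [h5]
  have h2 : ((N : ℝ) / D) ^ 2 = 24 * ((N : ℝ) ^ 2 / n2) := by
    rw [← hDn]
    field_simp
  have h3 : (N : ℝ) ^ 2 * (6 / n2) = 6 * ((N : ℝ) ^ 2 / n2) := by ring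
  have h4 : 0 ≤ (N : ℝ) ^ 2 / n2 := by positivity
  have h5 : (N : ℝ) ^ 2 * (6 / n2) + N / D ≤ 54 * (N ^ 2 / n2) := by linarith only [h1, h3]
  have h6 : (N : ℝ) ^ 2 * (6 / n2) + (N / D) ^ 2 ≤ 54 * (N ^ 2 / n2) := by linarith only [h2, h3, h4]
  calc C₃ * X ^ (1 + η) * ((N : ℝ) ^ 2 * (6 / n2) + N / D) ^ 7 *
        ((N : ℝ) ^ 2 * (6 / n2) + (N / D) ^ 2) ^ 2 * (1 + N ^ 3 / X)
      ≤ C₃ * X ^ (1 + η) * (54 * (N ^ 2 / n2)) ^ 7 * (54 * (N ^ 2 / n2)) ^ 2 *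
        (1 + N ^ 3 / X) := by (clear * - hN hn2 hD h5 hC₃ hX h6; gcongr)
    _ = _ := by ring

/-! ### The theorem -/

theorem class_II5b {e : Fr} {η ε₀ B : ℝ} {M : ℕ} (hη : 0 < η) (hε₀ : 0 < ε₀) (hM : 2 ≤ M)
    (hsec : ∀ η : ℝ, 0 < η → ∃ C : ℝ, 1 ≤ C ∧
      ∀ (X : ℝ) (N : ℕ) (W D τ : ℝ) (S : Finset (ℤ × ℤ)), 1 ≤ X → 1 ≤ N →
      (N : ℝ) ≤ X → 0 ≤ W → W ≤ 2 → 1 ≤ D → S ⊆ cn N → (∀ k ∈ S, |tt 0 k - τ| ≤ W) →
      (∀ k ∈ S, D * (Int.gcd k.1 k.2 : ℝ) ≤ k.1) →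
        RI e B X S ≤ ENNReal.ofReal (C * X ^ (1 + η) * (N ^ 2 * W + N / D) ^ 7 *
          (N ^ 2 * W + (N / D) ^ 2) ^ 2 * (1 + N ^ 3 / X)))
    (hr2 : ∀ ε β : ℝ, 0 < ε → 1 ≤ β → ∃ C : ℝ, 1 ≤ C ∧
      ∀ (ι : Type) (P : Finset ι) (I : ι → Finset (ℤ × ℤ)) (n : ι → ℤ × ℤ) (X U σ : ℝ) (N : ℕ),
        1 ≤ X → 1 ≤ N → (N : ℝ) ≤ X → 1 ≤ U → 0 < σ → σ ≤ β →
        (∀ p ∈ P, Pr (n p) ∧ U ≤ β * (n p).1 ∧ ((n p).1 : ℝ) ≤ β * U ∧ |sp (n p)| ≤ β ∧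
          σ ≤ |l1 e (sp (n p)) * l2 e (sp (n p))|) →
        (∀ p ∈ P, Cut β (I p) ∧ I p ⊆ cn N ∧ ∀ k ∈ I p, ((n p).1 : ℝ) ^ 2 * |tt 0 k - sp (n p)| ≤ 2 ∧
          |tt 0 k - sp (n p)| ^ 4 * (X * N) ≤ β) →
        (∀ v : ℤ × ℤ, ((P.filter (fun p => n p = v)).card : ℝ) ≤ β) →
          ∑ p ∈ P, RI e B X (I p) ≤
            ENNReal.ofReal (C * (X * N) ^ ε * (X / σ) * U ^ (-(10 : ℝ)) * BB N (X * N)))
    (hfib : ∀ (X : ℝ) (S : Finset (ℤ × ℤ)) (g : ℤ × ℤ → ℕ) (P : Finset ℕ), (∀ k ∈ S, g k ∈ P) →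
      RI e B X S ≤ ENNReal.ofReal ((P.card : ℝ) ^ 11) *
        ∑ i ∈ P, RI e B X (S.filter (fun k => g k = i)))
    (hcut : ∀ N a r a' r' a'' r'' : ℕ, 1 ≤ a → 1 ≤ a' → 1 ≤ a'' →
      Cut (24 ^ 12) (arc 0 (arc 0 (arc 0 (cn N) a r) a' r') a'' r''))
    (hsub : ∀ D Q τ τ' : ℝ, 1 ≤ D → D ≤ 2 * Q → ∀ n : ℤ × ℤ, Pr n → (n.1 : ℝ) ≤ D →
      2 * |τ' - τ| < |sp n - τ| → Q * ((n.1 : ℝ) * |sp n - τ|) ≤ 1 →
      1 ≤ 2 * Q * ((n.1 : ℝ) * |sp n - τ|) →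
      ∃ n' : ℤ × ℤ, Pr n' ∧ Q ≤ 8 * (n'.1 : ℝ) ∧ (n'.1 : ℝ) ≤ 8 * Q ∧
        |sp n' - τ'| * (n'.1 : ℝ) ^ 2 ≤ 1)
    (hcnt : ∃ C : ℝ, 1 ≤ C ∧ ∀ (N₁ N₂ r₀ : ℕ) (D Q : ℝ) (P : Finset ℕ), 1 ≤ N₁ → N₁ ≤ N₂ →
      1 ≤ D → D ≤ 2 * Q → P ⊆ Finset.range N₂ →
      (∀ r ∈ P, |ctr N₂ r - ctr N₁ r₀| ≤ 12 / N₁ ∧ ∃ n : ℤ × ℤ, Pr n ∧ (n.1 : ℝ) ≤ D ∧
        24 / N₂ ≤ |sp n - ctr N₂ r| ∧ Q * ((n.1 : ℝ) * |sp n - ctr N₂ r|) ≤ 1 ∧
        1 ≤ 2 * Q * ((n.1 : ℝ) * |sp n - ctr N₂ r|)) →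
      (P.card : ℝ) ≤ C * (1 + log D) * (N₂ / Q + (1 / N₁) * (N₂ / Q) ^ 2))
    (hnum : ∀ b : ℝ, 1 ≤ b → ∃ C : ℝ, 1 ≤ C ∧ ∀ (X N w Q : ℝ), 1 ≤ X → 1 ≤ N →
      N ≤ X ^ (4 / 9 + 1 / 1000 : ℝ) → 0 < Q → 1 ≤ b * (w ^ 4 * (X * N)) →
      w ^ 4 * (X * N) ≤ b → 0 < w → w ≤ b →
      X * (w ^ 6 * N ^ 18 * (1 + N ^ 3 / X)) ≤ C * FR X N ∧
      X * min (w * Q ^ 2 * BB N (X * N)) (N ^ 18 * (1 + N ^ 3 / X) / (Q ^ 12 * w ^ 3)) ≤
        C * FR X N ∧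
      (X ^ (1 / 10 : ℝ) ≤ N → (X * N) ^ (3 / 2 : ℝ) ≤ C * FR X N) ∧ 1 ≤ C * FR X N) :
    ∃ C : ℝ, 1 ≤ C ∧ ∀ (X σ D Q : ℝ) (N m₀ m₂ r₀ : ℕ) (P : Finset ℕ),
      Par e M ε₀ X σ N m₀ m₂ r₀ → 1 ≤ D → 24 * D ^ 2 = (M : ℝ) ^ m₂ → D ≤ 2 * Q →
      P ⊆ Finset.range (M ^ m₂) →
      (∀ r ∈ P, |ctr (M ^ m₂) r - ctr (M ^ m₀) r₀| ≤ 12 / (M ^ m₀ : ℕ) ∧
        (∀ n : ℤ × ℤ, Pr n → (n.1 : ℝ) ≤ D → 24 / (M ^ m₂ : ℕ) < |sp n - ctr (M ^ m₂) r|) ∧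
        ∃ n : ℤ × ℤ, Pr n ∧ (n.1 : ℝ) ≤ D ∧ Q * ((n.1 : ℝ) * |sp n - ctr (M ^ m₂) r|) ≤ 1 ∧
          1 ≤ 2 * Q * ((n.1 : ℝ) * |sp n - ctr (M ^ m₂) r|)) →
        SS e B X (arc 0 (cn N) (M ^ m₀) r₀) (M ^ m₂) P ≤
          ENNReal.ofReal (C * X ^ η * FR X N) := by
  have hM' : (2 : ℝ) ≤ M := by exact_mod_cast hM
  obtain ⟨L, hL, hL1, hL2⟩ := lip5b e
  obtain ⟨C₃, hC₃, hsec'⟩ := hsec (η / 2) (by positivity)
  obtain ⟨C₁, hC₁, hcnt'⟩ := hcnt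
  obtain ⟨Cb, hCb, hbeta⟩ := beta5b (ε := η / 4) (ε₀ := ε₀) hM
    (fun β hβ => hr2 (η / 4) β (by positivity) hβ) hfib hcut hsub hL hL1 hL2
  have hM4 : 1 ≤ (M : ℝ) ^ 4 := one_le_pow₀ (by linarith)
  obtain ⟨C₅, hC₅, hnum'⟩ := hnum ((M : ℝ) ^ 4) hM4
  set K₀ : ℝ := (12312 * L) ^ (1 / ε₀) with hK₀
  have hK₀1 : 1 ≤ K₀ := Real.one_le_rpow (by linarith only [hL]) (by positivity)
  set c₀ : ℝ := K₀ ^ 6 * (C₃ * K₀ ^ (1 + η / 2) * (54 * K₀ ^ 2) ^ 9 * (1 + K₀ ^ 3)) with hc₀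
  set c₁ : ℝ := (4 * C₁) ^ 6 * 24 ^ 3 * C₃ * 54 ^ 9 with hc₁
  set c₂ : ℝ := (2 * C₁) ^ 6 * C₃ * 54 ^ 9 with hc₂
  set c₃ : ℝ := (2 * C₁) ^ 5 * Cb with hc₃
  set cL : ℝ := (1 + 48 / η) ^ 6 with hcL
  have hc₀0 : 0 ≤ c₀ := by positivity
  have hc₁0 : 0 ≤ c₁ := by positivity
  have hc₂0 : 0 ≤ c₂ := by positivity
  have hc₃0 : 0 ≤ c₃ := by positivity
  have hcL0 : 0 ≤ cL := by positivity
  refine ⟨C₅ * (c₀ + cL * c₁ + cL * c₂ + cL * c₃ + 1), ?_, ?_⟩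
  · have h1 : 1 ≤ c₀ + cL * c₁ + cL * c₂ + cL * c₃ + 1 := by
      have := mul_nonneg hcL0 hc₁0
      have := mul_nonneg hcL0 hc₂0
      have := mul_nonneg hcL0 hc₃0
      linarith
    exact one_le_mul_of_one_le_of_one_le hC₅ h1
  intro X σ D Q N m₀ m₂ r₀ P hP hD hDn hDQ hPr hcl
  have hX := hP.X1
  have hN := hP.N1
  have hNr : (1 : ℝ) ≤ N := by exact_mod_cast hN
  have hX0 : 0 < X := by linarith only [hX]
  have hXK : X ≤ X * N := le_mul_of_one_le_right hX0.le hNr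
  have hNK : (N : ℝ) ≤ X * N := le_mul_of_one_le_left (by linarith only [hNr]) hX
  have hK1 : 1 ≤ X * N := hX.trans hXK
  have hNX : (N : ℝ) ≤ X := by
    refine hP.hi.trans ?_
    calc X ^ (4 / 9 + 1 / 1000 : ℝ) ≤ X ^ (1 : ℝ) :=
          Real.rpow_le_rpow_of_exponent_le hX (by norm_num)
      _ = X := Real.rpow_one X
  have hKX : X * N ≤ X ^ 2 := by
    rw [sq]
    exact mul_le_mul_of_nonneg_left hNX hX0.le
  have hn21 : (M : ℝ) ^ m₀ ≤ (M : ℝ) ^ m₂ := pow_le_pow_right₀ (by linarith only [hM']) hP.m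
  have hn1 : (1 : ℝ) ≤ (M : ℝ) ^ m₀ := one_le_pow₀ (by linarith only [hM'])
  have hk1 : ((M : ℝ) ^ m₂) ^ 4 ≤ X * N := by
    have h1 := hP.k1
    rwa [mul_comm 4 m₂, pow_mul] at h1
  have hk3 : X * N < (M : ℝ) ^ 4 * ((M : ℝ) ^ m₂) ^ 4 := by
    have h1 := hP.k2
    have e1 : (M : ℝ) ^ (4 * m₂ + 4) = (M : ℝ) ^ 4 * ((M : ℝ) ^ m₂) ^ 4 := by
      rw [pow_add, mul_comm 4 m₂, pow_mul, mul_comm]
    rwa [e1] at h1
  have hcN : ((M ^ m₂ : ℕ) : ℝ) = (M : ℝ) ^ m₂ := by push_cast; rfl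
  have hcN0 : ((M ^ m₀ : ℕ) : ℝ) = (M : ℝ) ^ m₀ := by push_cast; rfl
  have hone : 1 ≤ M ^ m₂ := Nat.one_le_pow _ _ (by omega)
  have hone0 : 1 ≤ M ^ m₀ := Nat.one_le_pow _ _ (by omega)
  have hcnt2 : (P.card : ℝ) ≤ C₁ * (1 + log D) * ((M : ℝ) ^ m₂ / Q +
      (1 / (M : ℝ) ^ m₀) * ((M : ℝ) ^ m₂ / Q) ^ 2) := by
    have h1 := hcnt' (M ^ m₀) (M ^ m₂) r₀ D Q P hone0 (Nat.pow_le_pow_right (by omega) hP.m) hD hDQ
      hPr fun r hr => by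
        obtain ⟨ha, hb, n, hn, hnD, h3, h4⟩ := hcl r hr
        exact ⟨ha, n, hn, hnD, (hb n hn hnD).le, h3, h4⟩
    rwa [hcN, hcN0] at h1
  have hcl2 : ∀ r ∈ P, ∀ n : ℤ × ℤ, Pr n → (n.1 : ℝ) ≤ D →
      24 / (M : ℝ) ^ m₂ < |sp n - ctr (M ^ m₂) r| := fun r hr => by
    rw [← hcN]
    exact (hcl r hr).2.1
  set G := arc 0 (cn N) (M ^ m₀) r₀ with hG
  have hGc : G ⊆ cn N := arc_sub5b _ _ _
  have hSc : ∀ r, arc 0 G (M ^ m₂) r ⊆ cn N := fun r => (arc_sub5b _ _ _).trans hGc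
  have hnear : ∀ r, ∀ k ∈ arc 0 G (M ^ m₂) r, |tt 0 k - ctr (M ^ m₂) r| ≤ 6 / (M : ℝ) ^ m₂ :=
    fun r k hk => by
      have := arc_near5b hone hGc hk
      rwa [hcN] at this
  have hbeta' := hbeta X σ D Q N m₀ m₂ r₀ P hP hD hDn hDQ hPr hNX
  have hpn : (P.card : ℝ) ≤ (M : ℝ) ^ m₂ := by
    have h1 := Finset.card_le_card hPr
    rw [Finset.card_range] at h1
    rw [← hcN]
    exact_mod_cast h1
  set n2 : ℝ := (M : ℝ) ^ m₂ with hn2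
  set n1 : ℝ := (M : ℝ) ^ m₀ with hn1'
  set p : ℝ := (P.card : ℝ) with hp
  have hp0 : 0 ≤ p := Nat.cast_nonneg _
  have hn24 : 24 ≤ n2 := by
    have := one_le_pow₀ hD (n := 2)
    linarith only [hDn, this]
  have hn20 : 0 < n2 := by linarith only [hn24]
  have hn10 : 0 < n1 := by linarith only [hn1]
  have hQ : 1 ≤ 2 * Q := hD.trans hDQ
  have hQ0 : 0 < Q := by linarith only [hD, hDQ]
  have hD0 : 0 < D := by linarith only [hD]
  have hn2K : n2 ≤ X * N := by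
    have h1 : n2 ≤ n2 ^ 4 := by
      calc n2 = n2 ^ 1 := (pow_one _).symm
        _ ≤ n2 ^ 4 := pow_le_pow_right₀ (by linarith only [hn24]) (by norm_num)
    exact h1.trans hk1
  have hDX : D ≤ X ^ 2 := by
    have h1 : D ≤ D ^ 2 := le_self_pow₀ hD two_ne_zero
    linarith only [hKX, hDn, hn24, hn2K, h1, sq_nonneg D]
  set LL := 1 + log D with hLL
  have hLL1 : 1 ≤ LL := by
    have := Real.log_nonneg hD
    linarith only [this]
  have hLLb : LL ^ 6 ≤ cL * X ^ (η / 4) := log5b hη hX hD hDX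
  obtain ⟨w, hw⟩ : ∃ w : ℝ, w = 1 / n2 := ⟨_, rfl⟩
  have hw0 : 0 < w := by rw [hw]; positivity
  have hw4 : w ^ 4 * (X * N) = X * N / n2 ^ 4 := by
    rw [hw]
    field_simp
  obtain ⟨hA, hBm, hCc, hF⟩ := hnum' X N w Q hX hNr hP.hi hQ0
    (by
      rw [hw4]
      have : 1 ≤ X * N / n2 ^ 4 := by
        rw [le_div_iff₀ (by positivity)]
        linarith only [hk1]
      exact one_le_mul_of_one_le_of_one_le hM4 this)
    (by
      rw [hw4, div_le_iff₀ (by positivity)]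
      exact hk3.le) hw0
    (by
      have : w ≤ 1 := by
        rw [hw, div_le_one hn20]
        linarith only [hn24]
      linarith only [hM4, this])
  set F := FR X N with hFdef
  have hF0 : 0 ≤ C₅ * F := by linarith only [hF]
  have hXη : 1 ≤ X ^ η := Real.one_le_rpow hX hη.le
  have hp6 : p ^ 6 ≤ C₅ * F := by
    refine le_trans ?_ (hCc hP.lo)
    calc p ^ 6 ≤ n2 ^ 6 := pow_le_pow_left₀ hp0 hpn 6
      _ = (n2 ^ 4) ^ (3 / 2 : ℝ) := by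
          rw [← Real.rpow_natCast n2 4, ← Real.rpow_mul hn20.le, ← Real.rpow_natCast n2 6]
          congr 1
          norm_num
      _ ≤ (X * N) ^ (3 / 2 : ℝ) := Real.rpow_le_rpow (by positivity) hk1 (by norm_num)
  have hgoal : ∀ V c : ℝ, 0 ≤ V → ∑ r ∈ P, RI e B X (arc 0 G (M ^ m₂) r) ≤ ENNReal.ofReal V →
      c ≤ c₀ + cL * c₁ + cL * c₂ + cL * c₃ → p ^ 5 * V ≤ c * X ^ η * (C₅ * F) →
      SS e B X G (M ^ m₂) P ≤
        ENNReal.ofReal (C₅ * (c₀ + cL * c₁ + cL * c₂ + cL * c₃ + 1) * X ^ η * F) := by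
    intro V c hV h1 hc h2
    refine (fin5b hV h1).trans (ENNReal.ofReal_le_ofReal ?_)
    have h3 : 0 ≤ X ^ η * (C₅ * F) := by positivity
    have h4 : c * X ^ η * (C₅ * F) ≤
        (c₀ + cL * c₁ + cL * c₂ + cL * c₃) * (X ^ η * (C₅ * F)) := by
      rw [mul_assoc]
      exact mul_le_mul_of_nonneg_right hc h3
    have h5 : p ^ 6 ≤ X ^ η * (C₅ * F) := hp6.trans (le_mul_of_one_le_left hF0 hXη)
    calc p ^ 5 * V + p ^ 6 ≤ (c₀ + cL * c₁ + cL * c₂ + cL * c₃) * (X ^ η * (C₅ * F)) +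
          X ^ η * (C₅ * F) := by linarith only [h2, h4, h5]
      _ = _ := by ring
  obtain ⟨Z, hZ⟩ : ∃ Z : ℝ, Z = 1 + (N : ℝ) ^ 3 / X := ⟨_, rfl⟩
  have hZ0 : 0 ≤ Z := by rw [hZ]; positivity
  obtain ⟨Rb, hRb⟩ : ∃ Rb : ℝ, Rb = C₃ * X ^ (1 + η / 2) * (54 * ((N : ℝ) ^ 2 / n2)) ^ 9 * Z :=
    ⟨_, rfl⟩
  have hRb0 : 0 ≤ Rb := by rw [hRb]; positivity
  have hsum : ∑ r ∈ P, RI e B X (arc 0 G (M ^ m₂) r) ≤ ENNReal.ofReal (p * Rb) := by
    have h1 : ∀ r ∈ P, RI e B X (arc 0 G (M ^ m₂) r) ≤ ENNReal.ofReal Rb := fun r hr => by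
      rw [hRb, hZ]
      exact sect5b hC₃ hsec' hX hN hNX hD hDn (hSc r) (hnear r) (hcl2 r hr)
    refine (Finset.sum_le_card_nsmul P _ _ h1).trans (le_of_eq ?_)
    rw [nsmul_eq_mul, ENNReal.ofReal_mul hp0, hp, ENNReal.ofReal_natCast]
  have hX1 : X ^ (1 + η / 2) = X * X ^ (η / 2) := by
    rw [Real.rpow_add hX0, Real.rpow_one]
  have hX2 : X ^ (η / 4) * X ^ (η / 2) ≤ X ^ η := by
    rw [← Real.rpow_add hX0]
    exact Real.rpow_le_rpow_of_exponent_le hX (by linarith only [hη])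
  have hcomb : ∀ c T : ℝ, 0 ≤ c → T ≤ C₅ * F → c * LL ^ 6 * X ^ (η / 2) * T ≤
      (cL * c) * X ^ η * (C₅ * F) := by
    intro c T hc hT
    calc c * LL ^ 6 * X ^ (η / 2) * T ≤ c * LL ^ 6 * X ^ (η / 2) * (C₅ * F) :=
          mul_le_mul_of_nonneg_left hT (by (clear * - hc hLL1 hX; positivity))
      _ ≤ c * (cL * X ^ (η / 4)) * X ^ (η / 2) * (C₅ * F) := by (clear * - hLLb hc hX hF; gcongr)
      _ = (cL * c) * (X ^ (η / 4) * X ^ (η / 2)) * (C₅ * F) := by ring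
      _ ≤ _ := by (clear * - hX2 hη hc hF; gcongr)
  have hcc1 := mul_nonneg hcL0 hc₁0
  have hcc2 := mul_nonneg hcL0 hc₂0
  have hcc3 := mul_nonneg hcL0 hc₃0
  rcases lt_or_ge ((X * (N : ℝ)) ^ ε₀) (12312 * L) with hKs | hKb
  · -- bounded parameters
    have hKK : X * N ≤ K₀ := by
      have h1 : X * N = ((X * (N : ℝ)) ^ ε₀) ^ (1 / ε₀) := by
        rw [← Real.rpow_mul (by linarith only [hn24, hn2K]), mul_one_div_cancel hε₀.ne', Real.rpow_one]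
      rw [h1, hK₀]
      exact Real.rpow_le_rpow (by positivity) hKs.le (by positivity)
    refine hgoal (p * Rb) c₀ (by (clear * - hRb0; positivity)) hsum (by linarith only [hcc1, hcc3]) ?_
    have h1 : p ≤ K₀ := hpn.trans (hn2K.trans hKK)
    have h2 : X ≤ K₀ := hXK.trans hKK
    have h3 : (N : ℝ) ≤ K₀ := hNK.trans hKK
    have h4 : (N : ℝ) ^ 2 / n2 ≤ K₀ ^ 2 := by
      rw [div_le_iff₀ hn20]
      have : (N : ℝ) ^ 2 ≤ K₀ ^ 2 := pow_le_pow_left₀ (by linarith only [hNr]) h3 2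
      exact this.trans (le_mul_of_one_le_right (by positivity) (by linarith only [hn24]))
    have h5 : Z ≤ 1 + K₀ ^ 3 := by
      rw [hZ]
      have h6 : (N : ℝ) ^ 3 / X ≤ N ^ 3 := div_le_self (by positivity) hX
      have h7 : (N : ℝ) ^ 3 ≤ K₀ ^ 3 := pow_le_pow_left₀ (by linarith only [hNr]) h3 3
      linarith only [h6, h7]
    have h6 : Rb ≤ C₃ * K₀ ^ (1 + η / 2) * (54 * K₀ ^ 2) ^ 9 * (1 + K₀ ^ 3) := by
      rw [hRb]
      (clear * - hX h2 hη hC₃ hN hM h4 hL h5 hZ0; gcongr)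
    calc p ^ 5 * (p * Rb) = p ^ 6 * Rb := by ring
      _ ≤ K₀ ^ 6 * (C₃ * K₀ ^ (1 + η / 2) * (54 * K₀ ^ 2) ^ 9 * (1 + K₀ ^ 3)) := by (clear * - h1 h6 hRb0 hL; gcongr)
      _ = c₀ * 1 * 1 := by rw [hc₀]; ring
      _ ≤ c₀ * X ^ η * (C₅ * F) := by (clear * - hXη hL hC₃ hF hX; gcongr)
  rcases le_or_gt (n2 / Q) n1 with hc | hc
  · -- few arcs
    refine hgoal (p * Rb) (cL * c₁) (by (clear * - hRb0; positivity)) hsum (by linarith only [hc₀0, hcc1, hcc3]) ?_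
    refine le_trans ?_ (hcomb c₁ _ hc₁0 hA)
    have h1 : (1 / n1) * (n2 / Q) ^ 2 ≤ n2 / Q := by
      have h2 : (1 / n1) * (n2 / Q) ≤ 1 := by
        rw [one_div, inv_mul_le_iff₀ hn10, mul_one]
        exact hc
      calc (1 / n1) * (n2 / Q) ^ 2 = ((1 / n1) * (n2 / Q)) * (n2 / Q) := by ring
        _ ≤ 1 * (n2 / Q) := mul_le_mul_of_nonneg_right h2 (by positivity)
        _ = n2 / Q := one_mul _
    have h2 : n2 / Q ≤ 2 * (n2 / D) := by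
      rw [← mul_div_assoc, div_le_div_iff₀ hQ0 hD0]
      have := mul_le_mul_of_nonneg_left hDQ hn20.le
      linarith only [this]
    have h3 : p ≤ 4 * C₁ * LL * (n2 / D) := by
      have h4 : 0 ≤ C₁ * LL := by positivity
      have h5 : n2 / Q + 1 / n1 * (n2 / Q) ^ 2 ≤ 4 * (n2 / D) := by linarith only [h1, h2]
      calc p ≤ C₁ * LL * (n2 / Q + 1 / n1 * (n2 / Q) ^ 2) := hcnt2
        _ ≤ C₁ * LL * (4 * (n2 / D)) := mul_le_mul_of_nonneg_left h5 h4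
        _ = _ := by ring
    have h4 : (n2 / D) ^ 2 = 24 * n2 := by
      rw [div_pow, div_eq_iff (by positivity), ← hDn]
      ring
    calc p ^ 5 * (p * Rb) = p ^ 6 * Rb := by ring
      _ ≤ (4 * C₁ * LL * (n2 / D)) ^ 6 * Rb := by (clear * - h3 hRb0; gcongr)
      _ = (4 * C₁) ^ 6 * LL ^ 6 * ((n2 / D) ^ 2) ^ 3 * Rb := by ring
      _ = (4 * C₁) ^ 6 * LL ^ 6 * (24 * n2) ^ 3 * Rb := by rw [h4]
      _ = c₁ * LL ^ 6 * X ^ (η / 2) * (X * (w ^ 6 * N ^ 18 * Z)) := by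
          rw [hRb, hX1, hc₁, hw]
          field_simp
      _ = _ := by rw [hZ]
  · -- many arcs
    have h1 : n2 / Q ≤ (1 / n1) * (n2 / Q) ^ 2 := by
      have h2 : 1 ≤ (1 / n1) * (n2 / Q) := by
        rw [one_div, inv_mul_eq_div, le_div_iff₀ hn10, one_mul]
        exact hc.le
      calc n2 / Q = 1 * (n2 / Q) := (one_mul _).symm
        _ ≤ ((1 / n1) * (n2 / Q)) * (n2 / Q) := mul_le_mul_of_nonneg_right h2 (by positivity)
        _ = (1 / n1) * (n2 / Q) ^ 2 := by ring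
    have h3 : p ≤ 2 * C₁ * LL * ((n2 / Q) ^ 2 / n1) := by
      have h4 : 0 ≤ C₁ * LL := by positivity
      have h5 : n2 / Q + 1 / n1 * (n2 / Q) ^ 2 ≤ 2 * ((n2 / Q) ^ 2 / n1) := by
        have : (n2 / Q) ^ 2 / n1 = 1 / n1 * (n2 / Q) ^ 2 := by ring
        rw [this]
        linarith only [h1]
      calc p ≤ C₁ * LL * (n2 / Q + 1 / n1 * (n2 / Q) ^ 2) := hcnt2
        _ ≤ C₁ * LL * (2 * ((n2 / Q) ^ 2 / n1)) := mul_le_mul_of_nonneg_left h5 h4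
        _ = _ := by ring
    have h3' : p ≤ 2 * C₁ * LL * (n2 / Q) ^ 2 := by
      refine h3.trans ?_
      have h4 : 0 ≤ 2 * C₁ * LL := by positivity
      exact mul_le_mul_of_nonneg_left (div_le_self (by positivity) hn1) h4
    rcases le_total (w * Q ^ 2 * BB N (X * N)) ((N : ℝ) ^ 18 * (1 + N ^ 3 / X) / (Q ^ 12 * w ^ 3))
      with hmin | hmin
    · rw [min_eq_left hmin] at hBm
      have hBB : 0 ≤ BB N (X * N) := by
        unfold BB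
        positivity
      refine hgoal _ (cL * c₃) ?_ (hbeta' hKb fun r hr => (hcl r hr).2) (by linarith only [hc₀0, hcc1]) ?_
      · positivity
      refine le_trans ?_ (hcomb c₃ _ hc₃0 hBm)
      have h5 : (X * (N : ℝ)) ^ (η / 4) ≤ X ^ (η / 2) := by
        calc (X * (N : ℝ)) ^ (η / 4) ≤ (X ^ 2) ^ (η / 4) :=
              Real.rpow_le_rpow (by linarith only [hn24, hn2K]) hKX (by positivity)
          _ = X ^ (η / 2) := by
              rw [← Real.rpow_natCast, ← Real.rpow_mul hX0.le]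
              congr 1
              push_cast
              ring
      have h6 : LL ^ 5 ≤ LL ^ 6 := pow_le_pow_right₀ hLL1 (by norm_num)
      have h7 : 1 / n1 ^ 4 ≤ 1 := by
        rw [div_le_one (by positivity)]
        exact one_le_pow₀ hn1
      calc p ^ 5 * (Cb * (X * N) ^ (η / 4) * X * n1 * Q ^ 12 / n2 ^ 11 * BB N (X * N))
          ≤ (2 * C₁ * LL * ((n2 / Q) ^ 2 / n1)) ^ 5 *
            (Cb * (X * N) ^ (η / 4) * X * n1 * Q ^ 12 / n2 ^ 11 * BB N (X * N)) := by (clear * - h3 hCb hX hN hM hQ0 hBB; gcongr)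
        _ = (2 * C₁) ^ 5 * Cb * LL ^ 5 * (X * N) ^ (η / 4) * (X * (1 / n2 * Q ^ 2 *
            BB N (X * N))) * (1 / n1 ^ 4) := by
            field_simp
        _ ≤ (2 * C₁) ^ 5 * Cb * LL ^ 6 * X ^ (η / 2) * (X * (1 / n2 * Q ^ 2 *
            BB N (X * N))) * 1 := by (clear * - h6 hC₁ hCb h5 hX hN hLL1 hM hQ0 hBB h7; gcongr)
        _ = _ := by rw [hc₃, hw, mul_one]
    · rw [min_eq_right hmin] at hBm
      refine hgoal (p * Rb) (cL * c₂) (by (clear * - hRb0; positivity)) hsum (by linarith only [hc₀0, hcc1, hcc3]) ?_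
      refine le_trans ?_ (hcomb c₂ _ hc₂0 hBm)
      calc p ^ 5 * (p * Rb) = p ^ 6 * Rb := by ring
        _ ≤ (2 * C₁ * LL * (n2 / Q) ^ 2) ^ 6 * Rb := by (clear * - h3' hRb0; gcongr)
        _ = c₂ * LL ^ 6 * X ^ (η / 2) * (X * (N ^ 18 * Z / (Q ^ 12 * w ^ 3))) := by
            rw [hRb, hX1, hc₂, hw]
            field_simp
        _ = _ := by rw [hZ]

end Pool.Agent.Helper60.RT
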