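import Pool.Agent.Helper5.RT.E1b
import Pool.Agent.Helper24.RT.R2
import Pool.Agent.Helper33.RT.K
import Pool.Agent.Helper47.RT.Q3
import Pool.Agent.Helper58.RT.B2
import Pool.Agent.Helper70.RT.K12
import Pool.Agent.Helper77.RT.Num
import Pool.Agent.Helper92.LA.A3

/-!
# Project RT, block E1b (`class_II`): the arcs of type II
-/

open MeasureTheory Real Set Filter Topology

set_option autoImplicit false

namespace Pool.Agent.Helper60.RT

open Pool.Agent.Helper22.AE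
open Pool.Agent.Helper22.AC (IsWt)
open Pool.Agent.Helper92.GC (dt tp Tq uu tt arc dd sqa m6)
open Pool.Agent.Helper92.DT (m12 IsMul12)
open Pool.Agent.Helper60.LT (Fr Tf xf yf df vf fr ac co Cut BB PP)
open Pool.Agent.Helper60.QL (R3 nm pA xA sA TA Cone)
open Pool.Agent.Helper78.CD (n12)
open Pool.Agent.Helper78.CE (hs mu2)

private theorem pw5b {ι : Type} (P : Finset ι) (f : ι → ℝ) (hf : ∀ i ∈ P, 0 ≤ f i) :
    (∑ i ∈ P, f i) ^ 12 ≤ (P.card : ℝ) ^ 11 * ∑ i ∈ P, f i ^ 12 := by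
  rcases P.eq_empty_or_nonempty with hP0 | hP0
  · rw [hP0]
    simp
  · have h := pow_sum_div_card_le_sum_pow (s := P) (f := f) hf 11
    have hcd : (0 : ℝ) < (P.card : ℝ) ^ 11 := by
      have : (0 : ℝ) < (P.card : ℝ) := by exact_mod_cast hP0.card_pos
      positivity
    rw [div_le_iff₀ hcd, mul_comm] at h
    exact h

private theorem intb5b {f : ℝ × ℝ → ℝ} (hf : Continuous f) : Integrable f (volume.restrict Tq) := by
  have h1 : IsCompact Tq := isCompact_Icc.prod isCompact_Icc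
  exact hf.continuousOn.integrableOn_compact h1

/-- splitting of the twelfth moment into the fibres of a map -/
private theorem m12_fib5b {ι : Type} [DecidableEq ι] (S : Finset (ℤ × ℤ)) (g : ℤ × ℤ → ι) (P : Finset ι) (hP : ∀ k ∈ S, g k ∈ P) (a : ℤ × ℤ → ℂ) :
    m12 S a ≤ (P.card : ℝ) ^ 11 * ∑ i ∈ P, m12 (S.filter (fun k => g k = i)) a := by
  have hc : ∀ S : Finset (ℤ × ℤ), Continuous fun c => ‖tp S a c‖ ^ 12 := fun S => (Pool.Agent.Helper92.GC.tp_cont S a).norm.pow 12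
  have h1 : ∀ c, ‖tp S a c‖ ^ 12 ≤ (P.card : ℝ) ^ 11 * ∑ i ∈ P, ‖tp (S.filter (fun k => g k = i)) a c‖ ^ 12 := by
    intro c
    have h2 : tp S a c = ∑ i ∈ P, tp (S.filter (fun k => g k = i)) a c := by
      unfold tp
      exact (Finset.sum_fiberwise_of_maps_to hP _).symm
    have h3 : ‖tp S a c‖ ≤ ∑ i ∈ P, ‖tp (S.filter (fun k => g k = i)) a c‖ := by
      rw [h2]
      exact norm_sum_le _ _
    exact (pow_le_pow_left₀ (norm_nonneg _) h3 12).trans (pw5b P (fun i => ‖tp (S.filter (fun k => g k = i)) a c‖) (fun i _ => norm_nonneg _))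
  unfold m12
  rw [← integral_finsetSum _ fun i _ => intb5b (hc _), ← integral_const_mul]
  exact integral_mono (intb5b (hc _)) (intb5b (continuous_const.mul (continuous_finsetSum _ fun i _ => hc _))) h1

private theorem mr_cont5b (e : Fr) (S : Finset (ℤ × ℤ)) : Continuous fun q : ℝ × ℝ => mr S q.2 (st q.1 e) := by
  unfold mr
  refine Pool.Agent.Helper92.LA.m12_cont_coef S (fun (q : ℝ × ℝ) k => ee (q.2 * nm (vf (st q.1 e) k))) fun k _ => ee_cont.comp ?_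
  unfold nm vf st
  fun_prop

private theorem abs5b {ι : Type} (P : Finset ι) (F : ι → ℝ → ℝ → ENNReal) (hm : ∀ i, Measurable fun q : ℝ × ℝ => F i q.1 q.2) (G : ℝ → ℝ → ENNReal)
    (c : ENNReal) (h : ∀ s r, G s r ≤ c * ∑ i ∈ P, F i s r) (A B : Set ℝ) :
    ∫⁻ s in A, ∫⁻ r in B, G s r ≤ c * ∑ i ∈ P, ∫⁻ s in A, ∫⁻ r in B, F i s r := by
  have hm1 : ∀ (i : ι) (s : ℝ), Measurable fun r : ℝ => F i s r := fun i s => (hm i).comp (measurable_const.prodMk measurable_id)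
  have hm2 : ∀ i : ι, Measurable fun s : ℝ => ∫⁻ r in B, F i s r := fun i => (hm i).lintegral_prod_right'
  rw [← lintegral_finsetSum _ fun i _ => hm2 i, ← lintegral_const_mul _ (Finset.measurable_fun_sum _ fun i _ => hm2 i)]
  refine lintegral_mono fun s => ?_
  dsimp only
  rw [← lintegral_finsetSum _ fun i _ => hm1 i s, ← lintegral_const_mul _ (Finset.measurable_fun_sum _ fun i _ => hm1 i s)]
  exact lintegral_mono fun r => h s r

private theorem RI_fib5b {ι : Type} [DecidableEq ι] (e : Fr) (B X : ℝ) (S : Finset (ℤ × ℤ)) (g : ℤ × ℤ → ι) (P : Finset ι) (hP : ∀ k ∈ S, g k ∈ P) :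
    RI e B X S ≤ ENNReal.ofReal ((P.card : ℝ) ^ 11) * ∑ i ∈ P, RI e B X (S.filter (fun k => g k = i)) := by
  have key : ∀ s r : ℝ, ENNReal.ofReal (mr S r (st s e)) ≤
      ENNReal.ofReal ((P.card : ℝ) ^ 11) * ∑ i ∈ P, ENNReal.ofReal (mr (S.filter (fun k => g k = i)) r (st s e)) := by
    intro s r
    have h0 : ∀ i ∈ P, 0 ≤ mr (S.filter (fun k => g k = i)) r (st s e) := fun i _ => Pool.Agent.Helper92.DT.m12_nonneg _ _
    have h1 : mr S r (st s e) ≤ (P.card : ℝ) ^ 11 * ∑ i ∈ P, mr (S.filter (fun k => g k = i)) r (st s e) := m12_fib5b S g P hP _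
    have h2 : (0 : ℝ) ≤ (P.card : ℝ) ^ 11 := pow_nonneg (Nat.cast_nonneg _) _
    rw [← ENNReal.ofReal_sum_of_nonneg h0, ← ENNReal.ofReal_mul h2]
    exact ENNReal.ofReal_le_ofReal h1
  exact abs5b P (fun i s r => ENNReal.ofReal (mr (S.filter (fun k => g k = i)) r (st s e)))
    (fun i => ENNReal.measurable_ofReal.comp (mr_cont5b e _).measurable) (fun s r => ENNReal.ofReal (mr S r (st s e))) _ key _ _

/-- E1b: type II arcs, level `Q`; `24 D² = M ^ m₂` -/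
theorem class_II {e : Fr} (he : 0 < df e) {η ε₀ B : ℝ} {M : ℕ} (hη : 0 < η) (hε₀ : 0 < ε₀) (hB : 1 ≤ B) (hM : 2 ≤ M) : ∃ C : ℝ, 1 ≤ C ∧
    ∀ (X σ D Q : ℝ) (N m₀ m₂ r₀ : ℕ) (P : Finset ℕ), Par e M ε₀ X σ N m₀ m₂ r₀ → 1 ≤ D → 24 * D ^ 2 = (M : ℝ) ^ m₂ → D ≤ 2 * Q → P ⊆ Finset.range (M ^ m₂) →
      (∀ r ∈ P, |ctr (M ^ m₂) r - ctr (M ^ m₀) r₀| ≤ 12 / (M ^ m₀ : ℕ) ∧ (∀ n : ℤ × ℤ, Pr n → (n.1 : ℝ) ≤ D → 24 / (M ^ m₂ : ℕ) < |sp n - ctr (M ^ m₂) r|) ∧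
        ∃ n : ℤ × ℤ, Pr n ∧ (n.1 : ℝ) ≤ D ∧ Q * ((n.1 : ℝ) * |sp n - ctr (M ^ m₂) r|) ≤ 1 ∧ 1 ≤ 2 * Q * ((n.1 : ℝ) * |sp n - ctr (M ^ m₂) r|)) →
        SS e B X (arc 0 (cn N) (M ^ m₀) r₀) (M ^ m₂) P ≤ ENNReal.ofReal (C * X ^ η * FR X N) := by
  classical
  refine class_II5b hη hε₀ hM (fun η hη => sec_bd he hη hB) (fun ε β hε hβ => r2 he hε hB hβ)
    (fun X S g P hP => RI_fib5b e B X S g P hP)
    (fun N a r a' r' a'' r'' h h' h'' => (((cn_cut N).2 a r h).2 a' r' h').2 a'' r'' h'')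
    (fun D Q τ τ' h1 h2 n hn a b c d => sub_near h1 h2 hn a b c d) ?_ ?_
  · obtain ⟨C, hC, h⟩ := count_II
    refine ⟨C, hC, fun N₁ N₂ r₀ D Q P h1 h2 h3 h4 h5 h6 => le_trans ?_ (h N₁ N₂ r₀ D Q h1 h2 h3 h4)⟩
    exact_mod_cast Finset.card_le_card fun r hr => Finset.mem_filter.2 ⟨h5 hr, h6 r hr⟩
  · intro b hb
    obtain ⟨C, hC, h⟩ := num_bds hb
    exact ⟨C, hC, fun X N w Q h1 h2 h3 h4 h5 h6 h7 h8 =>
      (h X N w Q h1 h2 h3 h4 h5 h6 h7 h8).2.2⟩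

end Pool.Agent.Helper60.RT
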